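import Pool.Agent.LibEX15.EAF
import Pool.Agent.LibSX15.TWF

/-!
MP_91b7ff_nt.  Power savings over Heath-Brown's bound for the twelfth moment of the Riemann zeta
function on the critical line and over all the bounds which it gives with the fourth moment: with
explicit exponents for all the moments between the fourth and the twelfth (sixth moment
`T^(1.24+η)`, eighth moment `T^(3/2-1/54+η)`), and for the twelfth moment and slightly beyond.
-/

set_option autoImplicit false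

namespace Pool.Agent.Results.MP_91b7ff_nt.ExplicitMoments

/-- (1) For every real `4 < A < 12` and every `η > 0`,
`∫_0^T |ζ(1/2+it)|^A dt ≤ T^(1+(A-4)/8-min((A-4)/200,(12-A)/216)+η)` for all large `T`.
(2) There is `c > 0` such that for every real `12 ≤ A < 12 + c` there is `δ > 0` with
`∫_0^T |ζ(1/2+it)|^A dt ≤ T^(1+(A-4)/8-δ)` for all large `T`; for `A = 12` the bound is `T^(2-δ)`. -/
theorem result :
    (∀ A : ℝ, 4 < A → A < 12 → ∀ η : ℝ, 0 < η → ∃ T₀ : ℝ, 1 ≤ T₀ ∧ ∀ T : ℝ, T₀ ≤ T →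
      ∫ t in (0 : ℝ)..T, ‖riemannZeta (1 / 2 + (t : ℂ) * Complex.I)‖ ^ A ≤
        T ^ (1 + (A - 4) / 8 - min ((A - 4) / 200) ((12 - A) / 216) + η)) ∧
    (∃ c : ℝ, 0 < c ∧ ∀ A : ℝ, 12 ≤ A → A < 12 + c →
      ∃ δ T₀ : ℝ, 0 < δ ∧ 1 ≤ T₀ ∧ ∀ T : ℝ, T₀ ≤ T →
        ∫ t in (0 : ℝ)..T, ‖riemannZeta (1 / 2 + (t : ℂ) * Complex.I)‖ ^ A ≤
          T ^ (1 + (A - 4) / 8 - δ)) := by
  refine ⟨fun A hA hA2 η hη => Pool.Agent.LibSX15.moments3 A hA hA2 η hη, ?_⟩
  obtain ⟨c, hc, h⟩ := Pool.Agent.LibSX15.moments12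
  exact ⟨c, hc, fun A hA hA2 => h A (by linarith) hA2⟩

end Pool.Agent.Results.MP_91b7ff_nt.ExplicitMoments
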