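import Mathlib
import Pool.Agent.LibFM89.W4

/-! # A lower bound for the fifth moment of zeta -/

set_option autoImplicit false

namespace Pool.Agent.Results.MP_91b7ff_nt.FifthMoment

open MeasureTheory Filter Topology

/-- The generalised divisor coefficient `d_κ(p^j) = κ(κ+1)⋯(κ+j-1)/j!`. -/
noncomputable def divCoeff (κ : ℝ) (j : ℕ) : ℝ := ∏ i ∈ Finset.range j, (κ + i) / (i + 1)

/-- The Euler factor at `p` of the arithmetic constant `a_{5/2}`. -/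
noncomputable def eulerFactor (p : Nat.Primes) : ℝ :=
  (1 - 1 / (p : ℝ)) ^ (25 / 4 : ℝ) * ∑' j : ℕ, divCoeff (5 / 2) j ^ 2 / (p : ℝ) ^ j

/-- `6^(-3/4) (4β/9)^(3/2) (3/(2ν³))^(1/2) / Γ(9/4)³`, `β = 220433/1879605`, `ν = 30080/41769`. -/
noncomputable def lowerFive : ℝ :=
  (6 : ℝ) ^ (-(3 / 4) : ℝ) * (4 / 9 * (220433 / 1879605)) ^ (3 / 2 : ℝ) *
    √(3 / (2 * (30080 / 41769) ^ 3)) / Real.Gamma (9 / 4) ^ 3

lemma eulerFactor_eq (p : Nat.Primes) : eulerFactor p = LibZM.Efac (5 / 2) ((p : ℝ)⁻¹) := by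
  unfold eulerFactor LibZM.Efac LibZM.Gsum
  rw [one_div]
  congr 1
  · congr 1
    norm_num
  · congr 1
    funext a
    rw [inv_pow, div_eq_mul_inv]
    rfl

lemma aconst_eq : ∏' p : Nat.Primes, eulerFactor p = LibZM.Aconst (5 / 2) := by
  rw [funext fun p => eulerFactor_eq p]
  rfl

lemma lowerFive_eq : lowerFive = LibFM89.c5 := by
  have hG : 0 < Real.Gamma (9 / 4) := Real.Gamma_pos_of_pos (by norm_num)
  have hG2 : Real.Gamma (13 / 4) = 9 / 4 * Real.Gamma (9 / 4) := by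
    rw [show (13 / 4 : ℝ) = 9 / 4 + 1 by norm_num, Real.Gamma_add_one (by norm_num)]
  unfold lowerFive LibFM89.c5 LibFM89.bval LibFM89.cval
  rw [hG2]
  obtain ⟨G, hGe⟩ : ∃ G, G = Real.Gamma (9 / 4) := ⟨_, rfl⟩
  rw [← hGe] at hG ⊢
  obtain ⟨β, hβ⟩ : ∃ β : ℝ, β = 220433 / 1879605 := ⟨_, rfl⟩
  obtain ⟨ν, hν⟩ : ∃ ν : ℝ, ν = 30080 / 41769 := ⟨_, rfl⟩
  have hβ0 : 0 < β := by rw [hβ]; norm_num
  have hν0 : 0 < ν := by rw [hν]; norm_num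
  rw [← hβ, ← hν]
  -- squares
  have hL : 0 ≤ (6 : ℝ) ^ (-(3 / 4) : ℝ) * (4 / 9 * β) ^ (3 / 2 : ℝ) * √(3 / (2 * ν ^ 3)) / G ^ 3 := by positivity
  have hR : 0 ≤ (β * (1 / 6) ^ (9 / 4 : ℝ) / (9 / 4 * G)) ^ (3 / 2 : ℝ) / √((1 / 6) ^ (21 / 4 : ℝ) * (2 / 3 * ν ^ 3 * G ^ 3)) := by
    positivity
  have sq32 : ∀ x : ℝ, 0 ≤ x → (x ^ (3 / 2 : ℝ)) ^ 2 = x ^ 3 := by
    intro x hx
    rw [← Real.rpow_natCast, ← Real.rpow_mul hx, ← Real.rpow_natCast]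
    norm_num
  have h6 : ((6 : ℝ) ^ (-(3 / 4) : ℝ)) ^ 2 * ((1 / 6 : ℝ) ^ (21 / 4 : ℝ)) = ((1 / 6 : ℝ) ^ (9 / 4 : ℝ)) ^ 3 := by
    rw [one_div, Real.inv_rpow (by norm_num), Real.inv_rpow (by norm_num), ← Real.rpow_neg (by norm_num),
      ← Real.rpow_neg (by norm_num), ← Real.rpow_natCast, ← Real.rpow_mul (by norm_num), ← Real.rpow_natCast,
      ← Real.rpow_mul (by norm_num), ← Real.rpow_add (by norm_num)]
    norm_num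
  have key : ((6 : ℝ) ^ (-(3 / 4) : ℝ) * (4 / 9 * β) ^ (3 / 2 : ℝ) * √(3 / (2 * ν ^ 3)) / G ^ 3) ^ 2 =
      ((β * (1 / 6) ^ (9 / 4 : ℝ) / (9 / 4 * G)) ^ (3 / 2 : ℝ) / √((1 / 6) ^ (21 / 4 : ℝ) * (2 / 3 * ν ^ 3 * G ^ 3))) ^ 2 := by
    rw [div_pow, mul_pow, mul_pow, div_pow, sq32 _ (by positivity), sq32 _ (by positivity), Real.sq_sqrt (by positivity),
      Real.sq_sqrt (by positivity)]
    obtain ⟨x, hx⟩ : ∃ x : ℝ, x = (6 : ℝ) ^ (-(3 / 4) : ℝ) := ⟨_, rfl⟩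
    obtain ⟨y, hy⟩ : ∃ y : ℝ, y = (1 / 6 : ℝ) ^ (21 / 4 : ℝ) := ⟨_, rfl⟩
    obtain ⟨z, hz⟩ : ∃ z : ℝ, z = (1 / 6 : ℝ) ^ (9 / 4 : ℝ) := ⟨_, rfl⟩
    have hy0 : 0 < y := by rw [hy]; positivity
    rw [← hx, ← hy, ← hz] at h6
    rw [← hx, ← hy, ← hz]
    have e1 : (β * z / (9 / 4 * G)) ^ 3 = (4 / 9 * β) ^ 3 * z ^ 3 / G ^ 3 := by
      field_simp
    rw [e1, ← h6]
    field_simp
  exact (sq_eq_sq₀ hL hR).mp key

/-- Let `a_{5/2} = ∏_p (1-1/p)^(25/4) ∑_j d_{5/2}(p^j)² p^(-j)`.  For every `ε > 0` there is `δ > 0` such that for all large `T` and all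
`0 ≤ a < b ≤ T` with `b - a ≥ T^(1-δ)`,
`∫_a^b |ζ(1/2+it)|^5 dt ≥ (lowerFive - ε) a_{5/2} (b - a) (log T)^(25/4)`, and `lowerFive > .00427`.
For `a = 0`, `b = T` this is a lower bound for `M_5(T)`. -/
theorem result :
    Multipliable eulerFactor ∧ 0 < ∏' p : Nat.Primes, eulerFactor p ∧ 427 / 100000 < lowerFive ∧
    ∀ ε : ℝ, 0 < ε → ∃ δ : ℝ, 0 < δ ∧ ∀ᶠ T : ℝ in atTop, ∀ a b : ℝ, 0 ≤ a → b ≤ T → T ^ (1 - δ) ≤ b - a →
      (lowerFive - ε) * (∏' p : Nat.Primes, eulerFactor p) * ((b - a) * Real.log T ^ (25 / 4 : ℝ)) ≤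
        ∫ t in a..b, ‖riemannZeta (1 / 2 + (t : ℂ) * Complex.I)‖ ^ 5 := by
  have hpos : 0 < LibZM.Aconst (5 / 2) := LibZM.Aconst_pos (by norm_num)
  refine ⟨?_, ?_, ?_, ?_⟩
  · rw [funext fun p => eulerFactor_eq p]
    exact LibZM.multipliable_Efac (by norm_num)
  · rw [aconst_eq]
    exact hpos
  · rw [lowerFive_eq]
    exact LibFM89.c5_gt
  · intro ε hε
    rw [aconst_eq, lowerFive_eq]
    have hc : ∀ X : ℝ, (LibFM89.c5 - ε) * LibZM.Aconst (5 / 2) * X =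
        (LibZM.Aconst (5 / 2) * LibFM89.c5 - ε * LibZM.Aconst (5 / 2)) * X := by
      intro X
      ring
    obtain ⟨δ, T₀, hδ, h⟩ := LibFM89.interval5_all (ε * LibZM.Aconst (5 / 2)) (by positivity)
    refine ⟨δ, hδ, ?_⟩
    filter_upwards [eventually_ge_atTop T₀] with T hT a b ha hb hab
    rw [hc, ← mul_assoc]
    exact h T hT a b ha hb hab

end Pool.Agent.Results.MP_91b7ff_nt.FifthMoment
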