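import Pool.Agent.LibOH30.W3
import Pool.Agent.LibOM70B.Fin2

/-! The first and the third moment of the zeta function on the critical line, weighted by continuous functions of
the prime phases: two-sided estimates with explicit constants, the same for all weights. -/

set_option autoImplicit false

namespace Pool.Agent.Results.MP_91b7ff_nt.OddMomentsLaw

open Filter Topology

/-- The generalised divisor coefficient `d_κ(p^a) = κ(κ+1)⋯(κ+a-1)/a!`. -/
noncomputable def divCoeff (κ : ℝ) (a : ℕ) : ℝ := ∏ i ∈ Finset.range a, (κ + i) / (i + 1)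

/-- The Euler factor at `p` of the arithmetic constant `a_κ`. -/
noncomputable def eulerFactor (κ : ℝ) (p : Nat.Primes) : ℝ :=
  (1 - 1 / (p : ℝ)) ^ (κ ^ 2) * ∑' a : ℕ, divCoeff κ a ^ 2 / (p : ℝ) ^ a

/-- The arithmetic constant `a_{k/2}` of the moment of order `k`. -/
noncomputable def aConst (k : ℕ) : ℝ := ∏' p : Nat.Primes, eulerFactor (k / 2) p

/-- The kernel `1/2 + (1/π) log |cot (π x)|`. -/
noncomputable def kernel (x : ℝ) : ℝ :=
  1 / 2 + (1 / Real.pi) * Real.log |Real.cos (Real.pi * x) / Real.sin (Real.pi * x)|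

/-- The constant of the upper bound for `k = 3`. -/
noncomputable def upperThree : ℝ :=
  2 / (Real.pi * Real.Gamma (1 / 4)) * ∫ v in (0:ℝ)..(1 / 2), v ^ (-(3 / 4) : ℝ) *
    ∫ r in (0:ℝ)..(1 / 2 - v), ∫ r' in (0:ℝ)..(1 / 2 - v),
      (r * r') ^ (-(1 / 2) : ℝ) * kernel (r - r') * (1 - r - r')

/-- The constant of the upper bound for `k = 1`. -/
noncomputable def upperOne : ℝ :=
  3 * √(Real.pi / 2) / Real.Gamma (5 / 4) *
    ∫ z in (0:ℝ)..(1 / 2), (z * (1 / 2 - z)) ^ (1 / 8 : ℝ) * √(1 + 4 * z / 5)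

/-- `(1/Γ(1/4)) ∫_0^1 t^(-3/4) e^(-2st) dt`. -/
noncomputable def lineMean (s : ℝ) : ℝ :=
  1 / Real.Gamma (1 / 4) * ∫ t in (0:ℝ)..1, t ^ (-(3 / 4) : ℝ) * Real.exp (-(2 * s * t))

/-- `e^(-s-2) (e^2 lineMean(2) + lineMean(-2)) / (1 - e^(-2))`. -/
noncomputable def lineError (s : ℝ) : ℝ :=
  Real.exp (-s - 2) * (Real.exp 2 * lineMean 2 + lineMean (-2)) / (1 - Real.exp (-2))

/-- The constant of the lower bound for `k = 1`. -/
noncomputable def lowerOne : ℝ :=
  (lineMean 5 - lineError 5) ^ (8 / 3 : ℝ) / (lineMean 8 + lineError 8) ^ (5 / 3 : ℝ)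

/-- The constant of the upper bound for the moment of order `k` (used for `k = 1` and `k = 3`). -/
noncomputable def upperConst (k : ℕ) : ℝ := if k = 1 then upperOne else upperThree

/-- The constant of the lower bound for the moment of order `k` (used for `k = 1` and `k = 3`). -/
noncomputable def lowerConst (k : ℕ) : ℝ := if k = 1 then lowerOne else 2 / 5

lemma eulerFactor_eq (κ : ℝ) (p : Nat.Primes) : eulerFactor κ p = LibZM.Efac κ ((p:ℝ)⁻¹) := by
  unfold eulerFactor LibZM.Efac LibZM.Gsum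
  rw [one_div]
  congr 1
  congr 1
  funext a
  rw [inv_pow, div_eq_mul_inv]
  rfl

lemma aConst_eq (k : ℕ) : aConst k = LibZM.Aconst (k / 2) := by
  unfold aConst
  have hfun : (fun p : Nat.Primes => eulerFactor (k / 2) p) =
      fun p : Nat.Primes => LibZM.Efac (k / 2) ((p:ℝ)⁻¹) := funext fun p => eulerFactor_eq _ p
  rw [hfun]; rfl

lemma upperOne_eq : upperOne = LibOM70.CS1 := by
  unfold upperOne LibOM70.CS1
  congr 2
  have h2 : √(2:ℝ) ^ 2 = 2 := Real.sq_sqrt (by norm_num)
  have h2' : √(2:ℝ) ≠ 0 := by positivity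
  have h3 : (2:ℝ) ^ (3 / 2 : ℝ) = 2 * √2 := by
    rw [show (3 / 2 : ℝ) = 1 + 1 / 2 by norm_num, Real.rpow_add (by norm_num), Real.rpow_one, ← Real.sqrt_eq_rpow]
  rw [h3, Real.sqrt_div Real.pi_pos.le]
  field_simp
  rw [h2]

lemma lineMean_eq (s : ℝ) : lineMean s = LibZM.pp s := by
  unfold lineMean LibZM.pp LibZM.Pint
  have h : ((1:ℝ) / 4 - 1) = -(3 / 4) := by norm_num
  rw [h]
  ring

lemma lineError_eq (s : ℝ) : lineError s = LibOM70.gg s := by
  unfold lineError LibOM70.gg
  rw [lineMean_eq, lineMean_eq]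
  congr 3
  ring

lemma lowerOne_eq : lowerOne = LibOM70.cL1 := by
  unfold lowerOne LibOM70.cL1
  rw [lineMean_eq, lineMean_eq, lineError_eq, lineError_eq]

lemma upperThree_eq : upperThree = 2 * LibM3.CI := by
  have h1 : LibM3.CI = (1 / (Real.pi * Real.Gamma (1/4))) * ∫ v in (0:ℝ)..(1/2), v ^ (-(3/4) : ℝ) *
    ∫ r in (0:ℝ)..(1/2 - v), ∫ r' in (0:ℝ)..(1/2 - v),
      (r * r') ^ (-(1/2) : ℝ) * kernel (r - r') * (1 - r - r') := rfl
  rw [h1]
  unfold upperThree
  ring

/-- The density `∏ |1 - p_i^(-1/2) e^(2 π i x_i)|^(-k)`. -/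
noncomputable def density (k : ℕ) {r : ℕ} (p : Fin r → ℕ) (x : Fin r → ℝ) : ℝ :=
  ∏ i, (‖1 - (((√(p i : ℝ))⁻¹ : ℝ) : ℂ) * (Circle.exp (2 * Real.pi * x i) : ℂ)‖ ^ k)⁻¹

/-- The unit cube `(0,1]^r`. -/
def cube (r : ℕ) : Set (Fin r → ℝ) := {x | ∀ i, x i ∈ Set.Ioc (0:ℝ) 1}

/-- The mean of `w` over the torus with respect to the probability law proportional to `density k`. -/
noncomputable def tiltedMean (k : ℕ) {r : ℕ} (p : Fin r → ℕ) (w : (Fin r → Circle) → ℝ) : ℝ :=
  (∫ x in cube r, w (fun i => Circle.exp (2 * Real.pi * x i)) * density k p x) / ∫ x in cube r, density k p x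

open MeasureTheory in
lemma integral_torus {r : ℕ} (f : LibLaw15.Tor r → ℝ) :
    ∫ x, f x ∂(LibLaw15.muT r) = ∫ x in cube r, f (fun i => ((x i : ℝ) : UnitAddCircle)) := by
  have h := UnitAddTorus.integral_preimage (d := Fin r) f (fun _ => (0:ℝ))
  have e : {x : Fin r → ℝ | ∀ i, x i ∈ Set.Ioc ((fun _ => (0:ℝ)) i) ((fun _ => (0:ℝ)) i + 1)} = cube r := by
    ext x
    simp only [cube, Set.mem_ofPred_eq, zero_add]
  rw [e] at h
  exact h

lemma toCircle_eq (x : ℝ) : AddCircle.toCircle (x : UnitAddCircle) = Circle.exp (2 * Real.pi * x) := by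
  rw [AddCircle.toCircle_apply_mk]
  congr 1
  ring

lemma ET_eq (k : ℕ) {r : ℕ} (p : Fin r → ℕ) (x : Fin r → ℝ) :
    LibLaw15.ET p (fun i => ((x i : ℝ) : UnitAddCircle)) ^ k = density k p x := by
  unfold LibLaw15.ET density
  rw [← Finset.prod_pow]
  refine Finset.prod_congr rfl fun i _ => ?_
  unfold LibLaw15.ab LibLaw15.rp
  rw [fourier_one, toCircle_eq, inv_pow]

lemma ET_one {r : ℕ} (p : Fin r → ℕ) (x : Fin r → ℝ) :
    LibLaw15.ET p (fun i => ((x i : ℝ) : UnitAddCircle)) = density 1 p x := by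
  rw [← ET_eq, pow_one]

lemma tiltedMean_three {r : ℕ} (p : Fin r → ℕ) (w : (Fin r → Circle) → ℝ) :
    tiltedMean 3 p w = LibLaw15.TM p (fun x => w fun i => AddCircle.toCircle (x i)) := by
  unfold tiltedMean LibLaw15.TM LibLaw15.MT
  rw [integral_torus, integral_torus]
  simp only [toCircle_eq, ET_eq, Pi.one_apply, one_mul]

lemma tiltedMean_one {r : ℕ} (p : Fin r → ℕ) (w : (Fin r → Circle) → ℝ) :
    tiltedMean 1 p w = LibOM70.TM1 p (fun x => w fun i => AddCircle.toCircle (x i)) := by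
  unfold tiltedMean LibOM70.TM1 LibOM70.MT1
  rw [integral_torus, integral_torus]
  simp only [toCircle_eq, ET_one, Pi.one_apply, one_mul]

lemma xt_eq {r : ℕ} (p : Fin r → ℕ) (t : ℝ) :
    (fun i => AddCircle.toCircle (LibLaw15.xt p t i)) = fun i => Circle.exp (t * Real.log (p i)) := by
  funext i
  show AddCircle.toCircle ((t * Real.log (p i) / (2 * Real.pi) : ℝ) : UnitAddCircle) = _
  rw [toCircle_eq]
  congr 1
  have := Real.pi_pos
  field_simp

/-- For `k = 1` and for `k = 3`: for all distinct primes `p_1, …, p_r` and every continuous function `w ≥ 0` on the torus,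
`liminf (∫_0^T |ζ|^k w(p_1^{it}, …, p_r^{it}) dt) / (a_{k/2} T (log T)^(k^2/4)) ≥ lowerConst k * tiltedMean k w` and
`limsup ≤ upperConst k * tiltedMean k w`. -/
theorem result :
    64 / 100 < lowerConst 1 ∧ upperConst 1 ≤ 3 / 2 ∧ lowerConst 3 = 2 / 5 ∧ upperConst 3 ≤ 648 / 1000 ∧
      ∀ k : ℕ, (k = 1 ∨ k = 3) →
        (Multipliable fun p : Nat.Primes => eulerFactor (k / 2) p) ∧ 0 < aConst k ∧
        ∀ (r : ℕ) (p : Fin r → ℕ), (∀ i, (p i).Prime) → Function.Injective p →
          ∀ w : (Fin r → Circle) → ℝ, Continuous w → (∀ z, 0 ≤ w z) → ∀ ε : ℝ, 0 < ε → ∀ᶠ T : ℝ in atTop,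
            (lowerConst k * tiltedMean k p w - ε) * aConst k * (T * Real.log T ^ ((k : ℝ) ^ 2 / 4)) ≤
                ∫ t in (0:ℝ)..T, ‖riemannZeta (1 / 2 + (t : ℂ) * Complex.I)‖ ^ k *
                  w (fun i => Circle.exp (t * Real.log (p i))) ∧
              ∫ t in (0:ℝ)..T, ‖riemannZeta (1 / 2 + (t : ℂ) * Complex.I)‖ ^ k *
                  w (fun i => Circle.exp (t * Real.log (p i))) ≤
                (upperConst k * tiltedMean k p w + ε) * aConst k * (T * Real.log T ^ ((k : ℝ) ^ 2 / 4)) := by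
  have hL1 : lowerConst 1 = LibOM70.cL1 := by
    unfold lowerConst; rw [if_pos rfl, lowerOne_eq]
  have hU1 : upperConst 1 = LibOM70.CS1 := by
    unfold upperConst; rw [if_pos rfl, upperOne_eq]
  have hL3 : lowerConst 3 = 2 / 5 := by
    unfold lowerConst; rw [if_neg (by norm_num)]
  have hU3 : upperConst 3 = 2 * LibM3.CI := by
    unfold upperConst; rw [if_neg (by norm_num), upperThree_eq]
  refine ⟨?_, ?_, ?_, ?_, ?_⟩
  · rw [hL1]; exact LibOM70.cL1_gt.2.2
  · rw [hU1]; exact LibOM70.CS1_le.2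
  · exact hL3
  · rw [hU3]; linarith [LibM3.CI_le]
  · intro k hk
    have hfun : (fun p : Nat.Primes => eulerFactor (k / 2) p) =
        fun p : Nat.Primes => LibZM.Efac (k / 2) ((p:ℝ)⁻¹) := funext fun p => eulerFactor_eq _ p
    have hA := LibZM.Aconst_pos (κ := (k:ℝ) / 2) (by positivity)
    refine ⟨?_, ?_, ?_⟩
    · rw [hfun]; exact LibZM.multipliable_Efac (by positivity)
    · rw [aConst_eq]; exact hA
    · intro r p hp hinj w hw hw0 ε hε
      have hwc : Continuous fun x : LibLaw15.Tor r => w fun i => AddCircle.toCircle (x i) :=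
        hw.comp (continuous_pi fun i => AddCircle.continuous_toCircle.comp (continuous_apply i))
      rcases hk with rfl | rfl
      · have hmain := LibOM70.law1_main2 hp hinj hwc (fun x => hw0 _) hε
        rw [hL1, hU1, tiltedMean_one, aConst_eq]
        filter_upwards [hmain, eventually_gt_atTop 1] with T h hT
        have hT0 : 0 ≤ T := by linarith
        have e : ∫ t in (0:ℝ)..T, ‖riemannZeta (1 / 2 + (t : ℂ) * Complex.I)‖ ^ 1 * w (fun i => Circle.exp (t * Real.log (p i))) =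
            ∫ t in Set.Icc 0 T, ‖riemannZeta (LibZM.crit t)‖ * w (fun i => AddCircle.toCircle (LibLaw15.xt p t i)) := by
          rw [intervalIntegral.integral_of_le hT0, MeasureTheory.integral_Icc_eq_integral_Ioc]
          simp only [xt_eq, pow_one]
          rfl
        rw [e]
        obtain ⟨h1, h2⟩ := h
        have e4 : ((1:ℕ):ℝ) ^ 2 / 4 = 1 / 4 := by norm_num
        have e2 : ((1:ℕ):ℝ) / 2 = 1 / 2 := by norm_num
        rw [e4, e2]
        unfold LibZM.Lam at h1 h2
        constructor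
        · refine (le_of_eq ?_).trans h1
          ring
        · refine h2.trans (le_of_eq ?_)
          ring
      · have hmain := LibLaw15.law15_main hp hinj hwc (fun x => hw0 _) hε
        have hlow := LibOH30.oh30_main hp hinj hwc (fun x => hw0 _) hε
        rw [hL3, hU3, tiltedMean_three, aConst_eq]
        filter_upwards [hmain, hlow, eventually_gt_atTop 1] with T h hl hT
        have hT0 : 0 ≤ T := by linarith
        have e : ∫ t in (0:ℝ)..T, ‖riemannZeta (1 / 2 + (t : ℂ) * Complex.I)‖ ^ 3 * w (fun i => Circle.exp (t * Real.log (p i))) =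
            ∫ t in Set.Icc 0 T, ‖riemannZeta (LibZM.crit t)‖ ^ 3 * w (fun i => AddCircle.toCircle (LibLaw15.xt p t i)) := by
          rw [intervalIntegral.integral_of_le hT0, MeasureTheory.integral_Icc_eq_integral_Ioc]
          simp only [xt_eq]
          rfl
        rw [e]
        obtain ⟨-, h2⟩ := h
        have h1 := hl
        have e4 : ((3:ℕ):ℝ) ^ 2 / 4 = 9 / 4 := by norm_num
        have e2 : ((3:ℕ):ℝ) / 2 = 3 / 2 := by norm_num
        rw [e4, e2]
        unfold LibM3.La3 at h1 h2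
        constructor
        · refine (le_of_eq ?_).trans h1
          ring
        · refine h2.trans (le_of_eq ?_)
          ring

end Pool.Agent.Results.MP_91b7ff_nt.OddMomentsLaw
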