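import Mathlib
import Pool.Agent.LibSM56.Done

/-! # A lower bound for the sixth moment of zeta -/

set_option autoImplicit false

namespace Pool.Agent.Results.MP_91b7ff_nt.SixthMoment

open MeasureTheory Filter Topology

/-- The Euler factor at `p` of the arithmetic constant `a₃`: `(1 - 1/p)^9 ∑_a C(a+2,2)² p^(-a)`. -/
noncomputable def eulerFactor (p : Nat.Primes) : ℝ :=
  (1 - 1 / (p : ℝ)) ^ 9 * ∑' a : ℕ, ((a + 2).choose 2 : ℝ) ^ 2 / (p : ℝ) ^ a

lemma dcoef_three (a : ℕ) : LibZM.dcoef 3 a = ((a + 2).choose 2 : ℝ) := by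
  unfold LibZM.dcoef
  induction a with
  | zero => simp
  | succ a ih =>
    rw [Finset.prod_range_succ, ih]
    have h1 : ((a + 1 + 2).choose 2 : ℝ) = ((a + 3 : ℕ) : ℝ) * ((a + 2 : ℕ) : ℝ) / 2 := by
      rw [show a + 1 + 2 = a + 3 by ring, Nat.cast_choose_two]
      push_cast
      ring
    have h2 : ((a + 2).choose 2 : ℝ) = ((a + 2 : ℕ) : ℝ) * ((a + 1 : ℕ) : ℝ) / 2 := by
      rw [Nat.cast_choose_two]
      push_cast
      ring
    rw [h1, h2]
    push_cast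
    have : (a : ℝ) + 1 ≠ 0 := by positivity
    field_simp
    ring

lemma eulerFactor_eq (p : Nat.Primes) : eulerFactor p = LibZM.Efac 3 ((p : ℝ)⁻¹) := by
  unfold eulerFactor LibZM.Efac LibZM.Gsum
  rw [one_div]
  congr 1
  · rw [show ((3 : ℝ) ^ 2) = ((9 : ℕ) : ℝ) by norm_num, Real.rpow_natCast]
  · congr 1
    funext a
    rw [inv_pow, div_eq_mul_inv, dcoef_three]

lemma aconst_eq : ∏' p : Nat.Primes, eulerFactor p = LibZM.Aconst 3 := by
  rw [funext fun p => eulerFactor_eq p]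
  rfl

/-- Let `a₃ = ∏_p (1-1/p)^9 ∑_a C(a+2,2)² p^(-a)`.  For every `ε > 0` there is `δ > 0` such that for all large `T` and all
`0 ≤ a < b ≤ T` with `b - a ≥ T^(1-δ)`,
`∫_a^b |ζ(1/2+it)|^6 dt ≥ (14967713/373248 - ε) (a₃/9!) (b - a) (log T)^9`, `14967713/373248 = 40.1012…`.
For `a = 0`, `b = T` this is a lower bound for `M_6(T)`. -/
theorem result :
    Multipliable eulerFactor ∧ 0 < ∏' p : Nat.Primes, eulerFactor p ∧
    ∀ ε : ℝ, 0 < ε → ∃ δ : ℝ, 0 < δ ∧ ∀ᶠ T : ℝ in atTop, ∀ a b : ℝ, 0 ≤ a → b ≤ T → T ^ (1 - δ) ≤ b - a →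
      (14967713 / 373248 - ε) * ((∏' p : Nat.Primes, eulerFactor p) / (Nat.factorial 9)) * ((b - a) * Real.log T ^ 9) ≤
        ∫ t in a..b, ‖riemannZeta (1 / 2 + (t : ℂ) * Complex.I)‖ ^ 6 := by
  have hpos : 0 < LibZM.Aconst 3 := LibZM.Aconst_pos (by norm_num)
  refine ⟨?_, ?_, ?_⟩
  · rw [funext fun p => eulerFactor_eq p]
    exact LibZM.multipliable_Efac (by norm_num)
  · rw [aconst_eq]
    exact hpos
  · intro ε hε
    rw [aconst_eq]
    have hfac : ((Nat.factorial 9 : ℕ) : ℝ) = 362880 := by norm_num [Nat.factorial]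
    have hc : ∀ X : ℝ, (14967713 / 373248 - ε) * (LibZM.Aconst 3 / (Nat.factorial 9 : ℕ)) * X =
        (LibZM.Aconst 3 * (2 * (14967713 / 373248 / 725760)) - ε * LibZM.Aconst 3 / 362880) * X := by
      intro X
      rw [hfac]
      ring
    obtain ⟨δ, T₀, hδ, h⟩ := LibSM56.sixth (ε * LibZM.Aconst 3 / 362880) (by positivity)
    refine ⟨δ, hδ, ?_⟩
    filter_upwards [eventually_ge_atTop T₀] with T hT a b ha hb hab
    rw [hc, ← mul_assoc]
    exact h T hT a b ha hb hab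

end Pool.Agent.Results.MP_91b7ff_nt.SixthMoment
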